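import Mathlib
import Pool.Agent.H28.Cusp.Band

set_option autoImplicit false

open MeasureTheory

namespace Pool.Agent.H19.Spare.CuspControlsBulk

/-- The `L²`-normalised Hecke–Maass cusp forms `U` for `SL₂(ℤ)` with eigenvalue `1/4 + T²`
(literally the conditions of the frozen statement `S17743`). -/
def Form (T : ℝ) (U : ℂ → ℂ) : Prop :=
  ContDiffOn ℝ 2 U {z : ℂ | 0 < z.im} ∧
  (∀ z : ℂ, 0 < z.im → U (z + 1) = U z ∧ U (-z⁻¹) = U z) ∧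
  (∀ z : ℂ, 0 < z.im →
    -((z.im : ℂ)) ^ 2 *
      (deriv (deriv (fun t : ℝ => U (z + (t : ℂ)))) 0 +
        deriv (deriv (fun t : ℝ => U (z + (t : ℂ) * Complex.I))) 0)
      = (1 / 4 + (T : ℂ) ^ 2) * U z) ∧
  (∀ y : ℝ, 0 < y →
    intervalIntegral (fun x : ℝ => U ((x : ℂ) + (y : ℂ) * Complex.I)) 0 1 volume = 0) ∧
  (∫ z in {z : ℂ | 0 < z.im ∧ |z.re| ≤ 1 / 2 ∧ 1 ≤ ‖z‖}, ‖U z‖ ^ 2 / z.im ^ 2) = 1 ∧
  (∀ n : ℕ, 1 ≤ n → ∃ c : ℂ, ∀ z : ℂ, 0 < z.im →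
    ∑ d ∈ n.divisors, ∑ b ∈ Finset.range d,
        U ((((n / d : ℕ) : ℂ) * z + (b : ℂ)) / (d : ℂ)) = c * U z)

/-- The band `|Re w| ≤ 1/2`, `Y ≤ Im w ≤ 4 Y`. -/
def Band (Y : ℝ) : Set ℂ := {w : ℂ | |w.re| ≤ 1 / 2 ∧ Y ≤ w.im ∧ w.im ≤ 4 * Y}

/-- The sup-norm bound with exponent `ε` on the set `K`. -/
def BoundOn (K : Set ℂ) (ε : ℝ) : Prop :=
  ∃ C : ℝ, ∀ U : ℂ → ℂ, ∀ T : ℝ, 1 ≤ T → Form T U → ∀ z ∈ K, ‖U z‖ ≤ C * T ^ ε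

/-- (1) For every `Y > 0` the band `B_Y = {|Re w| ≤ 1/2, Y ≤ Im w ≤ 4Y}` controls every compact
subset `K` of the upper half-plane, with a constant `C` depending on `K` and `Y` only, uniformly
over all continuous `SL₂(ℤ)`-invariant functions `U`, square-integrable over the standard
fundamental domain, which are eigenfunctions of the Hecke operators `T_p`, `p` prime.
(2) For every exponent `θ` and every `Y > 0`: the bound `‖U z‖ ≤ C T^θ` on all compact sets is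
equivalent to the same bound on the one band `B_Y`. -/
theorem result :
    (∀ Y : ℝ, 0 < Y → ∀ K : Set ℂ, IsCompact K → K ⊆ {z : ℂ | 0 < z.im} →
      ∃ C : ℝ, ∀ U : ℂ → ℂ,
        ContinuousOn U {z : ℂ | 0 < z.im} →
        (∀ z : ℂ, 0 < z.im → U (z + 1) = U z ∧ U (-z⁻¹) = U z) →
        IntegrableOn (fun z : ℂ => ‖U z‖ ^ 2 / z.im ^ 2)
          {z : ℂ | 0 < z.im ∧ |z.re| ≤ 1 / 2 ∧ 1 ≤ ‖z‖} →
        (∀ p : ℕ, p.Prime → ∃ c : ℂ, ∀ z : ℂ, 0 < z.im →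
          U ((p : ℂ) * z) + ∑ b ∈ Finset.range p, U ((z + (b : ℂ)) / (p : ℂ)) = c * U z) →
        ∀ z ∈ K, ∃ w ∈ Band Y, ‖U z‖ ≤ C * ‖U w‖) ∧
    (∀ θ : ℝ, ∀ Y : ℝ, 0 < Y →
      ((∀ K : Set ℂ, IsCompact K → K ⊆ {z : ℂ | 0 < z.im} → BoundOn K θ) ↔
        BoundOn (Band Y) θ)) := by
  have h1 : (∀ Y : ℝ, 0 < Y → ∀ K : Set ℂ, IsCompact K → K ⊆ {z : ℂ | 0 < z.im} →
      ∃ C : ℝ, ∀ U : ℂ → ℂ,
        ContinuousOn U {z : ℂ | 0 < z.im} →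
        (∀ z : ℂ, 0 < z.im → U (z + 1) = U z ∧ U (-z⁻¹) = U z) →
        IntegrableOn (fun z : ℂ => ‖U z‖ ^ 2 / z.im ^ 2)
          {z : ℂ | 0 < z.im ∧ |z.re| ≤ 1 / 2 ∧ 1 ≤ ‖z‖} →
        (∀ p : ℕ, p.Prime → ∃ c : ℂ, ∀ z : ℂ, 0 < z.im →
          U ((p : ℂ) * z) + ∑ b ∈ Finset.range p, U ((z + (b : ℂ)) / (p : ℂ)) = c * U z) →
        ∀ z ∈ K, ∃ w ∈ Band Y, ‖U z‖ ≤ C * ‖U w‖) := by
    intro Y hY K hK hKs
    obtain ⟨C, hC⟩ := H28.Cusp.band Y hY K hK hKs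
    refine ⟨C, fun U a b c d z hz => ?_⟩
    obtain ⟨w, w1, w2, w3, w4⟩ := hC U a b c d z hz
    exact ⟨w, ⟨w1, w2, w3⟩, w4⟩
  refine ⟨h1, fun θ Y hY => ⟨fun h => ?_, fun h K hK hKs => ?_⟩⟩
  · refine h (Band Y) ?_ fun w hw => lt_of_lt_of_le hY hw.2.1
    have e : Band Y = Set.Icc (-(1 / 2 : ℝ)) (1 / 2) ×ℂ Set.Icc Y (4 * Y) := by
      ext w
      rw [Complex.mem_reProdIm]
      simp only [Band, Set.mem_ofPred_eq, Set.mem_Icc, abs_le]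
    rw [e]
    exact isCompact_Icc.reProdIm isCompact_Icc
  · obtain ⟨C, hC⟩ := h1 Y hY K hK hKs
    obtain ⟨C', hC'⟩ := h
    refine ⟨|C| * C', fun U T hT hU z hz => ?_⟩
    obtain ⟨f1, f2, f3, f4, f5, f6⟩ := hU
    obtain ⟨w, hw, hle⟩ := hC U f1.continuousOn f2 (by
        by_contra hni
        rw [integral_undef hni] at f5
        norm_num at f5) (by
        intro p hp
        obtain ⟨c, hc⟩ := f6 p hp.one_lt.le
        refine ⟨c, fun z hz => ?_⟩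
        rw [← hc z hz, Nat.Prime.divisors hp, Finset.sum_pair hp.one_lt.ne]
        simp [Nat.div_self hp.pos]) z hz
    have h5 := hC' U T hT ⟨f1, f2, f3, f4, f5, f6⟩ w hw
    calc ‖U z‖ ≤ C * ‖U w‖ := hle
      _ ≤ |C| * ‖U w‖ := mul_le_mul_of_nonneg_right (le_abs_self C) (norm_nonneg _)
      _ ≤ |C| * (C' * T ^ θ) := mul_le_mul_of_nonneg_left h5 (abs_nonneg C)
      _ = |C| * C' * T ^ θ := by ring

end Pool.Agent.H19.Spare.CuspControlsBulk
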